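import Pool.Agent.U581.LB.StmQ
import Pool.Agent.U97.LB.BLK

/-!
# Project LQ (helper581), package DIV: blocks of the increments
-/

set_option autoImplicit false
set_option linter.unusedVariables false

namespace Pool.Agent.U480.LB

open Real Finset Pool.Agent.U581.LB Pool.Agent.U97.LB

theorem cf_le' {d : ℝ} (hd : 0 < d) :
    ∃ A : ℝ, 0 < A ∧ ∀ n : ℕ, 1 ≤ n → cf n ≤ A * (n : ℝ) ^ (-(3 / 4) + d) := by
  obtain ⟨C, hC, h⟩ := Pool.Agent.Helper112.divisor_bound d hd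
  refine ⟨4 * C / π, by positivity, fun n hn => ?_⟩
  have h1 := Pool.Agent.H383.Gauss.card_A_le n hn
  have h2 : r2 n ≤ 4 * (C * (n : ℝ) ^ d) := by
    rw [r2_eq]
    calc ((Pool.Agent.H383.Gauss.A n).ncard : ℝ) ≤ ((4 * n.divisors.card : ℕ) : ℝ) := by
          exact_mod_cast h1
      _ = 4 * (n.divisors.card : ℝ) := by push_cast; ring
      _ ≤ 4 * (C * (n : ℝ) ^ d) := mul_le_mul_of_nonneg_left (h n hn) (by norm_num)
  have hn0 : (0 : ℝ) < n := by exact_mod_cast hn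
  have e : (n : ℝ) ^ (-(3 / 4) + d) = (n : ℝ) ^ d * (n : ℝ) ^ (-(3 / 4) : ℝ) := by
    rw [← Real.rpow_add hn0]
    congr 1
    ring
  unfold cf
  calc r2 n / π * (n : ℝ) ^ (-(3 / 4) : ℝ)
      ≤ (4 * (C * (n : ℝ) ^ d)) / π * (n : ℝ) ^ (-(3 / 4) : ℝ) := by gcongr
    _ = 4 * C / π * (n : ℝ) ^ (-(3 / 4) + d) := by
        rw [e]
        ring

/-- `n ^ a` for `n` in a block -/
theorem pow_blk' {N q n : ℕ} (h : n ∈ blk N q) (d : ℝ) :
    (n : ℝ) ^ (-(1 / 2) - d) = (q : ℝ) ^ (-(1 / 2) - d) * (rt n : ℝ) ^ (-1 - 2 * d) := by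
  obtain ⟨h1, h2, h3, h4⟩ := mem_blk h
  have e : (n : ℝ) = (rt n : ℝ) ^ (2 : ℝ) * q := by
    rw [Real.rpow_two]
    exact_mod_cast h2.symm
  have h0 : (0 : ℝ) ≤ rt n := Nat.cast_nonneg _
  conv_lhs => rw [e]
  rw [Real.mul_rpow (by positivity) (Nat.cast_nonneg _), ← Real.rpow_mul h0, mul_comm]
  congr 2
  ring

/-- the sum over `m ≥ 1` of `m ^ (-1-2d)` -/
noncomputable def Zd (d : ℝ) : ℝ := ∑' m : ℕ, (m : ℝ) ^ (-1 - 2 * d)

theorem Zd_nonneg (d : ℝ) : 0 ≤ Zd d := tsum_nonneg fun m => Real.rpow_nonneg (Nat.cast_nonneg _) _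

theorem blk_le_Zd {d : ℝ} (hd : 0 < d) (N q : ℕ) :
    ∑ n ∈ blk N q, (rt n : ℝ) ^ (-1 - 2 * d) ≤ Zd d := by
  have hinj : Set.InjOn rt (blk N q : Set ℕ) := by
    intro a ha b hb hab
    have h1 := (mem_blk (mem_coe.1 ha)).2.1
    have h2 := (mem_blk (mem_coe.1 hb)).2.1
    rw [← h1, ← h2, hab]
  have h := sum_image (f := fun m : ℕ => (m : ℝ) ^ (-1 - 2 * d)) hinj
  rw [← h]
  have hs : Summable fun m : ℕ => (m : ℝ) ^ (-1 - 2 * d) :=
    Real.summable_nat_rpow.2 (by linarith)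
  exact hs.sum_le_tsum _ fun m _ => Real.rpow_nonneg (Nat.cast_nonneg _) _

/-- the general bound -/
theorem gen {A d : ℝ} (hd : 0 < d) {N q : ℕ} (hq : 1 ≤ q) {h a : ℝ} (hh : 0 < h)
    (hA : 0 ≤ A) (f : ℕ → ℝ)
    (hf : ∀ n ∈ blk N q, f n ≤ A * ((n : ℝ) ^ (-(1 / 2) - d)) * h ^ a) :
    ∑ n ∈ blk N q, f n ≤ A * Zd d * (q : ℝ) ^ (-(1 / 2) : ℝ) * h ^ a := by
  have hq1 : (1 : ℝ) ≤ q := by exact_mod_cast hq
  have hterm : ∀ n ∈ blk N q, f n ≤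
      A * (q : ℝ) ^ (-(1 / 2) : ℝ) * h ^ a * (rt n : ℝ) ^ (-1 - 2 * d) := by
    intro n hn
    refine (hf n hn).trans ?_
    rw [pow_blk' hn]
    have h1 : (q : ℝ) ^ (-(1 / 2) - d) ≤ (q : ℝ) ^ (-(1 / 2) : ℝ) :=
      Real.rpow_le_rpow_of_exponent_le hq1 (by linarith)
    have h2 : 0 ≤ (rt n : ℝ) ^ (-1 - 2 * d) := Real.rpow_nonneg (Nat.cast_nonneg _) _
    calc A * ((q : ℝ) ^ (-(1 / 2) - d) * (rt n : ℝ) ^ (-1 - 2 * d)) * h ^ a
        ≤ A * ((q : ℝ) ^ (-(1 / 2) : ℝ) * (rt n : ℝ) ^ (-1 - 2 * d)) * h ^ a := by gcongr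
      _ = _ := by ring
  refine (sum_le_sum hterm).trans ?_
  rw [← mul_sum]
  have h6 : 0 ≤ A * (q : ℝ) ^ (-(1 / 2) : ℝ) * h ^ a := by positivity
  calc A * (q : ℝ) ^ (-(1 / 2) : ℝ) * h ^ a * ∑ n ∈ blk N q, (rt n : ℝ) ^ (-1 - 2 * d)
      ≤ A * (q : ℝ) ^ (-(1 / 2) : ℝ) * h ^ a * Zd d :=
        mul_le_mul_of_nonneg_left (blk_le_Zd hd N q) h6
    _ = _ := by ring

theorem t_DIV : S_DIV := by
  intro ε hε
  set d : ℝ := min ε (1 / 4) / 6 with hdd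
  have hd : 0 < d := by rw [hdd]; positivity
  have hdε : 6 * d ≤ ε := by
    rw [hdd]
    have := min_le_left ε (1 / 4)
    linarith
  have hd4 : d ≤ 1 / 24 := by
    rw [hdd]
    have := min_le_right ε (1 / 4)
    linarith
  obtain ⟨A, hA0, hA⟩ := cf_le' hd
  have hZ := Zd_nonneg d
  refine ⟨2 * π * A * Zd d + 2 * π ^ 2 * A ^ 2 * Zd d + 1, by positivity, ?_⟩
  intro N q h hq hh hh1
  have hq0 : 0 ≤ (q : ℝ) ^ (-(1 / 2) : ℝ) := Real.rpow_nonneg (Nat.cast_nonneg _) _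
  constructor
  · have h1 : Bh N q h ≤ 2 * π * A * Zd d * (q : ℝ) ^ (-(1 / 2) : ℝ) * h ^ (1 / 2 - 4 * d) := by
      unfold Bh
      refine gen hd hq hh (by positivity) _ fun n hn => ?_
      have h1 := (mem_blk hn).1
      have hn0 : (0 : ℝ) < n := by exact_mod_cast h1
      have hx : 0 < √(n : ℝ) * h := mul_pos (Real.sqrt_pos.2 hn0) hh
      have h2 := min_one (s := 1 / 2 - 4 * d) hx (by linarith) (by linarith)
      have h3 : (√(n : ℝ) * h) ^ (1 / 2 - 4 * d) =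
          (n : ℝ) ^ (1 / 4 - 2 * d) * h ^ (1 / 2 - 4 * d) := by
        rw [Real.mul_rpow (Real.sqrt_nonneg _) hh.le, Real.sqrt_eq_rpow, ← Real.rpow_mul hn0.le]
        congr 2
        ring
      have h4 : (n : ℝ) ^ (-(3 / 4) + d) * (n : ℝ) ^ (1 / 4 - 2 * d) =
          (n : ℝ) ^ (-(1 / 2) - d) := by
        rw [← Real.rpow_add hn0]
        congr 1
        ring
      calc cf n * min 2 (2 * π * (√n * h))
          ≤ (A * (n : ℝ) ^ (-(3 / 4) + d)) * (2 * π * (√(n : ℝ) * h) ^ (1 / 2 - 4 * d)) :=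
            mul_le_mul (hA n h1) h2 (le_min (by norm_num) (by positivity)) (by positivity)
        _ = 2 * π * A * ((n : ℝ) ^ (-(3 / 4) + d) * (n : ℝ) ^ (1 / 4 - 2 * d)) *
              h ^ (1 / 2 - 4 * d) := by
            rw [h3]
            ring
        _ = _ := by rw [h4]
    have h2 : h ^ (1 / 2 - 4 * d) ≤ h ^ (1 / 2 - ε) :=
      Real.rpow_le_rpow_of_exponent_ge hh hh1 (by linarith)
    have h0 : 0 ≤ h ^ (1 / 2 - ε) := Real.rpow_nonneg hh.le _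
    calc Bh N q h ≤ 2 * π * A * Zd d * (q : ℝ) ^ (-(1 / 2) : ℝ) * h ^ (1 / 2 - 4 * d) := h1
      _ ≤ 2 * π * A * Zd d * (q : ℝ) ^ (-(1 / 2) : ℝ) * h ^ (1 / 2 - ε) :=
          mul_le_mul_of_nonneg_left h2 (by positivity)
      _ ≤ _ := by
          refine mul_le_mul_of_nonneg_right (mul_le_mul_of_nonneg_right ?_ hq0) h0
          have : 0 ≤ 2 * π ^ 2 * A ^ 2 * Zd d := by positivity
          linarith
  · have h1 : Vh N q h ≤ 2 * π ^ 2 * A ^ 2 * Zd d * (q : ℝ) ^ (-(1 / 2) : ℝ) * h ^ (2 - 6 * d) := by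
      unfold Vh
      refine gen hd hq hh (by positivity) _ fun n hn => ?_
      have h1 := (mem_blk hn).1
      have hn0 : (0 : ℝ) < n := by exact_mod_cast h1
      have hx : 0 < √(n : ℝ) * h := mul_pos (Real.sqrt_pos.2 hn0) hh
      have h2 := min_two (s := 2 - 6 * d) hx (by linarith) (by linarith)
      have e : (√(n : ℝ) * h) ^ 2 = n * h ^ 2 := by
        rw [mul_pow, Real.sq_sqrt hn0.le]
      rw [e] at h2
      have h3 : (√(n : ℝ) * h) ^ (2 - 6 * d) = (n : ℝ) ^ (1 - 3 * d) * h ^ (2 - 6 * d) := by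
        rw [Real.mul_rpow (Real.sqrt_nonneg _) hh.le, Real.sqrt_eq_rpow, ← Real.rpow_mul hn0.le]
        congr 2
        ring
      have h4 : ((n : ℝ) ^ (-(3 / 4) + d)) ^ 2 * (n : ℝ) ^ (1 - 3 * d) =
          (n : ℝ) ^ (-(1 / 2) - d) := by
        rw [← Real.rpow_natCast, ← Real.rpow_mul hn0.le, ← Real.rpow_add hn0]
        congr 1
        push_cast
        ring
      have h5 : cf n ^ 2 ≤ (A * (n : ℝ) ^ (-(3 / 4) + d)) ^ 2 :=
        pow_le_pow_left₀ (Pool.Agent.U97.LB.cf_nonneg n) (hA n h1) 2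
      calc cf n ^ 2 * min 2 (2 * π ^ 2 * (n * h ^ 2))
          ≤ (A * (n : ℝ) ^ (-(3 / 4) + d)) ^ 2 * (2 * π ^ 2 * (√(n : ℝ) * h) ^ (2 - 6 * d)) :=
            mul_le_mul h5 h2 (le_min (by norm_num) (by positivity)) (by positivity)
        _ = 2 * π ^ 2 * A ^ 2 * (((n : ℝ) ^ (-(3 / 4) + d)) ^ 2 * (n : ℝ) ^ (1 - 3 * d)) *
              h ^ (2 - 6 * d) := by
            rw [h3]
            ring
        _ = _ := by rw [h4]
    have h2 : h ^ (2 - 6 * d) ≤ h ^ (2 - ε) :=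
      Real.rpow_le_rpow_of_exponent_ge hh hh1 (by linarith)
    have h0 : 0 ≤ h ^ (2 - ε) := Real.rpow_nonneg hh.le _
    calc Vh N q h ≤ 2 * π ^ 2 * A ^ 2 * Zd d * (q : ℝ) ^ (-(1 / 2) : ℝ) * h ^ (2 - 6 * d) := h1
      _ ≤ 2 * π ^ 2 * A ^ 2 * Zd d * (q : ℝ) ^ (-(1 / 2) : ℝ) * h ^ (2 - ε) :=
          mul_le_mul_of_nonneg_left h2 (by positivity)
      _ ≤ _ := by
          refine mul_le_mul_of_nonneg_right (mul_le_mul_of_nonneg_right ?_ hq0) h0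
          have : 0 ≤ 2 * π * A * Zd d := by positivity
          linarith

end Pool.Agent.U480.LB
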